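import Pool.Agent.H35.PegStair

/-! The universal parity of the points of all Jordan curves without inscribed squares. -/

set_option autoImplicit false
open Complex Set Topology Metric

namespace Pool.Agent.H35.PegCol

open Pool.Agent.Y535.PEG
open Pool.Agent.H763R2 Pool.Agent.H763R2.An Pool.Agent.W675.Peg Pool.Agent.TH569.Peg
open Pool.Agent.H763R2.Dm (NoSq floor_const)

/-- the staircase condition for the squares on the side `ε = ± i` of an arc -/
def Stair (c : ℝ → ℂ) (ε : ℂ) (σ : ℝ) (p p' : ℝ) : Prop :=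
  (∃ δ > 0, ∀ y ∈ Ioo p (p + δ), 0 < σ * mgc c (c p + ε * (c y - c p))) ∧
  (∀ y ∈ Ioc p p', 0 < σ * mgc c (c p + ε * (c y - c p)) ∨
    σ * mgc c (c y + ε * (c y - c p)) < 0) ∧
  (∀ x ∈ Ico p p', 0 < σ * mgc c (c p' + ε * (c p' - c x)) ∨
    σ * mgc c (c x + ε * (c p' - c x)) < 0) ∧
  0 < σ * mgc c (c p + ε * (c p' - c p)) ∧ 0 < σ * mgc c (c p' + ε * (c p' - c p))

/-- left or right staircase -/
def StairLR (c : ℝ → ℂ) (p p' : ℝ) : Prop :=
  ∃ (ε : ℂ) (σ : ℝ), (ε = I ∨ ε = -I) ∧ (σ = 1 ∨ σ = -1) ∧ Stair c ε σ p p'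

theorem stair_rev {c : ℝ → ℂ} (L : Loop c) (J : Inj c) {z0 : ℂ} (hz : 0 < mgc c z0) {σ : ℝ}
    (hσ : σ = 1 ∨ σ = -1) {p p' : ℝ} (h : AR c p p') (H : Stair c (-I) σ p p') :
    Stair (fun t => c (-t)) I σ (-p') (-p) := by
  obtain ⟨⟨δ, hδ, h0⟩, h1, h2, h3, h4⟩ := H
  obtain ⟨g, hg, hside⟩ := cone_side L J hz
  -- the sign
  have hgs : σ = -g := by
    obtain ⟨ρ, hρ, hρ1⟩ := hside p h.ha
    obtain ⟨r, hr, r1, r2⟩ : ∃ r > 0, r < δ ∧ r < ρ :=
      ⟨min (δ / 2) (ρ / 2), by positivity, lt_of_le_of_lt (min_le_left _ _) (by linarith),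
        lt_of_le_of_lt (min_le_right _ _) (by linarith)⟩
    have k1 := h0 (p + r) ⟨by linarith, by linarith⟩
    obtain ⟨-, -, -, k2⟩ := hρ1 p (p + r) (by simpa using hρ)
      (by rw [add_sub_cancel_left, abs_of_pos hr]; exact r2) (by linarith)
    have e : CC c (p + r) p = c p + -I * (c (p + r) - c p) := by
      show c p + I * (c p - c (p + r)) = _
      ring
    rw [e] at k2
    rcases hσ with rfl | rfl <;> rcases hg with rfl | rfl
    · linarith
    · norm_num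
    · norm_num
    · linarith
  refine ⟨?_, ?_, ?_, ?_, ?_⟩
  · obtain ⟨ρ, hρ, hρ1⟩ := hside p' h.hb
    refine ⟨ρ, hρ, fun y hy => ?_⟩
    obtain ⟨-, -, k1, -⟩ := hρ1 (-y) p' (by rw [abs_lt]; constructor <;> linarith [hy.1, hy.2])
      (by simpa using hρ) (by linarith [hy.1])
    have e : DD c p' (-y) = c (- -p') + I * (c (-y) - c (- -p')) := by rw [neg_neg]; rfl
    rw [mgc_rev L, ← e, hgs]
    linarith
  · intro y hy
    have := h2 (-y) ⟨by linarith [hy.2], by linarith [hy.1]⟩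
    simp only [neg_neg]
    rw [mgc_rev L, mgc_rev L]
    rw [show c p' + I * (c (-y) - c p') = c p' + -I * (c p' - c (-y)) by ring,
      show c (-y) + I * (c (-y) - c p') = c (-y) + -I * (c p' - c (-y)) by ring]
    exact this
  · intro x hx
    have := h1 (-x) ⟨by linarith [hx.2], by linarith [hx.1]⟩
    simp only [neg_neg]
    rw [mgc_rev L, mgc_rev L]
    rw [show c p + I * (c p - c (-x)) = c p + -I * (c (-x) - c p) by ring,
      show c (-x) + I * (c p - c (-x)) = c (-x) + -I * (c (-x) - c p) by ring]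
    exact this
  · simp only [neg_neg]
    rw [mgc_rev L, show c p' + I * (c p - c p') = c p' + -I * (c p' - c p) by ring]
    exact h4
  · simp only [neg_neg]
    rw [mgc_rev L, show c p + I * (c p - c p') = c p + -I * (c p' - c p) by ring]
    exact h3

/-- The universal parity. -/
theorem universal : ∃ X : (ℝ → ℂ) → ℝ → ZMod 2,
    ∀ c, Loop c → Inj c → NoSq (range c) →
    (∀ s, X c (s + 1) = X c s + 1) ∧
    (∀ p p', p < p' → Mirc2 c c p p' p p' → X c p' = X c p) ∧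
    (∀ s t, AR c s t → (∀ r ∈ Icc s t, Mon c r) → X c t = X c s) ∧
    (∀ s t, AR c s t →
      (∃ f, Smx f ∧ f '' (c '' Icc s t) = c '' Icc s t ∧ f (c s) = c t) → X c t = X c s) ∧
    (∀ s t, AR c s t → StairLR c s t → X c t = X c s) ∧
    ∀ c', Loop c' → Inj c' → NoSq (range c') →
    (∀ p p' q q', p < p' → q < q' → Dirc2 c c' p p' q q' →
      X c' q' - X c' q = X c p' - X c p) ∧
    (∀ p p' q q', p < p' → q < q' → Mirc2 c c' p p' q q' →
      X c' q' - X c' q = X c p' - X c p) ∧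
    (∀ s t s' t', AR c s t → AR c' s' t' →
      (∃ f, Smx f ∧ f '' (c '' Icc s t) = c' '' Icc s' t') →
      X c' t' - X c' s' = X c t - X c s) := by
  classical
  obtain ⟨K, hK⟩ : ∃ K : (ℝ → ℂ) → Prop, ∀ c, K c ↔ Loop c ∧ Inj c ∧ NoSq (range c) :=
    ⟨_, fun _ => Iff.rfl⟩
  obtain ⟨cc, hcc⟩ : ∃ cc : {c // K c} → ℝ → ℂ, ∀ k, cc k = k.1 := ⟨fun k => k.1, fun _ => rfl⟩
  have L : ∀ k, Loop (cc k) := fun k => by rw [hcc]; exact ((hK _).1 k.2).1
  have J : ∀ k, Inj (cc k) := fun k => by rw [hcc]; exact ((hK _).1 k.2).2.1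
  have nosq : ∀ k, NoSq (range (cc k)) := fun k => by rw [hcc]; exact ((hK _).1 k.2).2.2
  have ex := fun k => exDtx (L k) (J k) (nosq k)
  choose Th G N0 Z Y D using ex
  obtain ⟨x0, hx0⟩ := exXg (Gf cc (fun k => Nrm (Th k) (N0 k))) Gf.refl
    (fun s t r k k' h h' => h.comp h') (fun s k h => Gf.loop D h)
  obtain ⟨X, hXc, hXn⟩ : ∃ X : {c // K c} × ℝ → ZMod 2, (∀ p, Cone (cc p.1) p.2 →
      X p = (Y p.1 p.2 : ZMod 2)) ∧ ∀ p, ¬ Cone (cc p.1) p.2 → X p = x0 p :=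
    ⟨fun p => if Cone (cc p.1) p.2 then (Y p.1 p.2 : ZMod 2) else x0 p, fun p hp => if_pos hp,
      fun p hp => if_neg hp⟩
  have hX : ∀ p q k k', Gf cc (fun k => Nrm (Th k) (N0 k)) p q k →
      Gf cc (fun k => Nrm (Th k) (N0 k)) q p k' → X q = X p + k := by
    intro p q k k' h h'
    by_cases hs : Cone (cc p.1) p.2
    · obtain ⟨hc, hl⟩ := h.tame D hs
      rw [hXc p hs, hXc q hc]
      exact hl
    · have hc : ¬ Cone (cc q.1) q.2 := fun hc => hs (h'.tame D hc).1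
      rw [hXn p hs, hXn q hc]
      exact hx0 _ _ _ _ h h'
  have hXd : ∀ k s, Cone (cc k) s → X (k, s) = (Y k s : ZMod 2) := fun k s h => hXc (k, s) h
  have sim : ∀ i j s t s' t', AR (cc i) s t → AR (cc j) s' t' →
      (∃ f, Smx f ∧ f '' (cc i '' Icc s t) = cc j '' Icc s' t') →
      X (j, t') - X (j, s') = X (i, t) - X (i, s) := by
    intro i j s t s' t' h h' hf
    obtain ⟨f, ⟨u, v, hu, hTT⟩, k2⟩ := hf
    have hp := pair2 (L i) (J i) (D i).pos (D i).A (L _) (J _) (nosq _) (D _).pos (D _).A h h'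
      ((D i).lev _ h.ha) ((D i).lev _ h.hb) ((D _).lev _ h'.ha) ((D _).lev _ h'.hb) hu
      (v := v) (by
        rcases hTT with h | h
        · left; rw [← h]; exact k2
        · right; rw [← h]; exact k2)
    rw [hXd _ _ h.ha, hXd _ _ h.hb, hXd _ _ h'.ha, hXd _ _ h'.hb]
    have := z2_pm (m := Y i t - Y i s) (m' := Y j t' - Y j s') (by
      rcases hp with hp | hp
      · left; linarith
      · right; linarith)
    push_cast at this
    exact this
  have stL : ∀ i s t (σ : ℝ), (σ = 1 ∨ σ = -1) → AR (cc i) s t → Stair (cc i) I σ s t →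
      X (i, t) = X (i, s) := by
    intro i s t σ hσ h hs
    obtain ⟨h0, h1, h2, h3, h4⟩ := hs
    have := stair (L i) (J i) (D i).pos (D i).A h ((D i).lev _ h.ha) ((D i).lev _ h.hb) hσ
      h0 h1 h2 h3 h4
    rw [hXd _ _ h.ha, hXd _ _ h.hb]
    have e : Y i t = Y i s := by linarith
    rw [e]
  have stR : ∀ i s t (σ : ℝ), (σ = 1 ∨ σ = -1) → AR (cc i) s t → Stair (cc i) (-I) σ s t →
      X (i, t) = X (i, s) := by
    intro i s t σ hσ h hs
    have hs' := stair_rev (L i) (J i) (D i).pos hσ h hs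
    have hKr : K (fun t => cc i (-t)) := (hK _).2 ⟨(L i).rev, (J i).rev (L i), by
      have := nosq i
      rwa [← range_rev] at this⟩
    have ecc : cc ⟨_, hKr⟩ = fun t => cc i (-t) := hcc _
    have hAR : AR (cc ⟨_, hKr⟩) (-t) (-s) := by
      rw [ecc]
      exact ⟨by linarith [h.ab], by linarith [h.ba], h.hb.rev, h.ha.rev⟩
    have e1 := stL ⟨_, hKr⟩ (-t) (-s) σ hσ hAR (by rw [ecc]; exact hs')
    have e2 := sim i ⟨_, hKr⟩ s t (-t) (-s) h hAR ⟨fun z => z, ⟨1, 0, one_ne_zero,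
      Or.inl (by funext z; ring)⟩, by rw [image_id', ecc, im_rev]⟩
    rw [e1, sub_self] at e2
    exact sub_eq_zero.1 e2.symm
  refine ⟨fun c s => if h : K c then X (⟨c, h⟩, s) else 0, fun c hL hJ hN => ?_⟩
  have hc : K c := (hK c).2 ⟨hL, hJ, hN⟩
  have val : ∀ (c : ℝ → ℂ) (h : K c) (s : ℝ),
      (if h : K c then X (⟨c, h⟩, s) else 0) = X (⟨c, h⟩, s) := fun c h s => dif_pos h
  have ec : ∀ (c : ℝ → ℂ) (h : K c), cc ⟨c, h⟩ = c := fun c h => hcc _
  simp only [val c hc]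
  refine ⟨fun s => ?_, fun p p' hp h => ?_, fun s t h hm => ?_, fun s t h hf => ?_,
    fun s t h hs => ?_, fun c' hL' hJ' hN' => ?_⟩
  · rw [hX _ _ _ _ (Gf.shift D ⟨c, hc⟩ s) (Gf.unshift D ⟨c, hc⟩ s), z2_of_odd (D _).odd]
  · have := (mirc2_x D hX (i := ⟨c, hc⟩) (j := ⟨c, hc⟩) hp hp (by rw [ec]; exact h)).2 rfl rfl rfl
    exact sub_eq_zero.1 this
  · have e := (D ⟨c, hc⟩).mon s t (by rw [ec]; exact h) (by rw [ec]; exact hm)
    rw [hXd _ _ (by rw [ec]; exact h.hb), hXd _ _ (by rw [ec]; exact h.ha), e]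
  · have := z2_of_even ((D ⟨c, hc⟩).slf s t (by rw [ec]; exact h) (by rw [ec]; exact hf))
    push_cast at this
    rw [hXd _ _ (by rw [ec]; exact h.hb), hXd _ _ (by rw [ec]; exact h.ha)]
    exact sub_eq_zero.1 this
  · obtain ⟨ε, σ, hε, hσ, hs⟩ := hs
    rcases hε with rfl | rfl
    · exact stL ⟨c, hc⟩ s t σ hσ (by rw [ec]; exact h) (by rw [ec]; exact hs)
    · exact stR ⟨c, hc⟩ s t σ hσ (by rw [ec]; exact h) (by rw [ec]; exact hs)
  · have hc' : K c' := (hK c').2 ⟨hL', hJ', hN'⟩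
    simp only [val c' hc']
    refine ⟨fun p p' q q' hp hq h => ?_, fun p p' q q' hp hq h => ?_,
      fun s t s' t' h h' hf => ?_⟩
    · exact dirc2_x D hX (i := ⟨c, hc⟩) (j := ⟨c', hc'⟩) hp hq (by rw [ec, ec]; exact h)
    · exact (mirc2_x D hX (i := ⟨c, hc⟩) (j := ⟨c', hc'⟩) hp hq (by rw [ec, ec]; exact h)).1
    · exact sim ⟨c, hc⟩ ⟨c', hc'⟩ s t s' t' (by rw [ec]; exact h) (by rw [ec]; exact h')
        (by rw [ec, ec]; exact hf)

end Pool.Agent.H35.PegCol
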