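import Mathlib

/-! Sums over arcs that cover the circle an odd number of times. -/

set_option autoImplicit false
open Set Topology Filter

namespace Pool.Agent.H35.OddCov

theorem floor_one {p p' s : ℝ} (h1 : p < p') (h2 : p' < p + 1)
    (hg : ∀ j : ℤ, s + j ≠ p ∧ s + j ≠ p') :
    ((∃ j : ℤ, p < s + j ∧ s + j < p') → ⌊p' - s⌋ = ⌊p - s⌋ + 1) ∧
    ((¬ ∃ j : ℤ, p < s + j ∧ s + j < p') → ⌊p' - s⌋ = ⌊p - s⌋) := by
  have a1 := Int.floor_le (p - s)
  have a2 := Int.lt_floor_add_one (p - s)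
  have a3 : (⌊p - s⌋ : ℝ) ≠ p - s := fun h => (hg ⌊p - s⌋).1 (by rw [h]; ring)
  have a4 : (⌊p - s⌋ : ℝ) < p - s := lt_of_le_of_ne a1 a3
  constructor
  · rintro ⟨j, j1, j2⟩
    have j3 : ⌊p - s⌋ < j := by
      have : (⌊p - s⌋ : ℝ) < j := by linarith
      exact_mod_cast this
    have j4 : j < ⌊p - s⌋ + 2 := by
      have : (j : ℝ) < ⌊p - s⌋ + 2 := by linarith
      exact_mod_cast this
    have j5 : j = ⌊p - s⌋ + 1 := by omega
    rw [Int.floor_eq_iff]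
    rw [j5] at j2
    push_cast at j2 ⊢
    constructor <;> linarith
  · intro h
    rw [Int.floor_eq_iff]
    refine ⟨by linarith, ?_⟩
    by_contra hcon
    push Not at hcon
    refine h ⟨⌊p - s⌋ + 1, by push_cast; linarith, ?_⟩
    have := (hg (⌊p - s⌋ + 1)).2
    push_cast at this ⊢
    exact lt_of_le_of_ne (by linarith) this

theorem floor_near (v : ℝ) : ∀ᶠ ε in 𝓝[>] (0 : ℝ),
    ((∃ n : ℤ, v = n) → ⌊v - ε⌋ = ⌊v⌋ - 1 ∧ ⌊v + ε⌋ = ⌊v⌋) ∧
    ((¬ ∃ n : ℤ, v = n) → ⌊v - ε⌋ = ⌊v⌋ ∧ ⌊v + ε⌋ = ⌊v⌋) ∧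
    ∀ j : ℤ, v - ε ≠ j ∧ v + ε ≠ j := by
  by_cases h : ∃ n : ℤ, v = n
  · obtain ⟨n, rfl⟩ := h
    have : ∀ᶠ ε in 𝓝[>] (0 : ℝ), ε ∈ Ioo (0 : ℝ) 1 := Ioo_mem_nhdsGT one_pos
    filter_upwards [this] with ε hε
    refine ⟨fun _ => ?_, fun h => absurd ⟨n, rfl⟩ h, fun j => ⟨fun h => ?_, fun h => ?_⟩⟩
    · rw [Int.floor_intCast]
      constructor
      · rw [Int.floor_eq_iff]; push_cast; constructor <;> linarith [hε.1, hε.2]
      · rw [Int.floor_eq_iff]; constructor <;> linarith [hε.1, hε.2]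
    · have h1 : (j : ℝ) < n := by linarith [hε.1]
      have h2 : (n : ℝ) < j + 1 := by linarith [hε.2]
      have h3 : j < n := by exact_mod_cast h1
      have h4 : n < j + 1 := by exact_mod_cast h2
      omega
    · have h1 : (n : ℝ) < j := by linarith [hε.1]
      have h2 : (j : ℝ) < n + 1 := by linarith [hε.2]
      have h3 : n < j := by exact_mod_cast h1
      have h4 : j < n + 1 := by exact_mod_cast h2
      omega
  · have a1 : (⌊v⌋ : ℝ) < v := lt_of_le_of_ne (Int.floor_le v) (fun e => h ⟨_, e.symm⟩)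
    have a2 := Int.lt_floor_add_one v
    have : ∀ᶠ ε in 𝓝[>] (0 : ℝ), ε ∈ Ioo (0 : ℝ) (min (v - ⌊v⌋) (⌊v⌋ + 1 - v)) :=
      Ioo_mem_nhdsGT (lt_min (by linarith) (by linarith))
    filter_upwards [this] with ε hε
    obtain ⟨e1, e2⟩ := hε
    rw [lt_min_iff] at e2
    obtain ⟨e2, e3⟩ := e2
    refine ⟨fun h' => absurd h' h, fun _ => ?_, fun j => ⟨fun h => ?_, fun h => ?_⟩⟩
    · constructor
      · rw [Int.floor_eq_iff]; constructor <;> linarith
      · rw [Int.floor_eq_iff]; constructor <;> linarith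
    · have h1 : (⌊v⌋ : ℝ) < j := by linarith
      have h2 : (j : ℝ) < ⌊v⌋ + 1 := by linarith
      have h3 : ⌊v⌋ < j := by exact_mod_cast h1
      have h4 : j < ⌊v⌋ + 1 := by exact_mod_cast h2
      omega
    · have h1 : (⌊v⌋ : ℝ) < j := by linarith
      have h2 : (j : ℝ) < ⌊v⌋ + 1 := by linarith
      have h3 : ⌊v⌋ < j := by exact_mod_cast h1
      have h4 : j < ⌊v⌋ + 1 := by exact_mod_cast h2
      omega

theorem per_nat {x : ℝ → ZMod 2} (hx : ∀ s, x (s + 1) = x s + 1) (s : ℝ) (n : ℕ) :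
    x (s + n) = x s + n := by
  induction n with
  | zero => simp
  | succ n ih =>
    push_cast
    rw [← add_assoc, hx, ih]; ring

theorem per_int {x : ℝ → ZMod 2} (hx : ∀ s, x (s + 1) = x s + 1) (s : ℝ) (n : ℤ) :
    x (s + n) = x s + n := by
  obtain ⟨m, rfl | rfl⟩ := n.eq_nat_or_neg
  · simpa using per_nat hx s m
  · have := per_nat hx (s - m) m
    rw [sub_add_cancel] at this
    push_cast
    rw [← sub_eq_add_neg, this]; ring

open Classical in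
/-- if every point which is not an end is covered by a number of arcs with the parity `d`, the total
change of a function of parity along the arcs is `d` -/
theorem cover_sum {α : Type*} (S : Finset α) (p p' : α → ℝ)
    (hp : ∀ m ∈ S, p m < p' m ∧ p' m < p m + 1) (d : ZMod 2)
    (hcov : ∀ s : ℝ, (∀ m ∈ S, ∀ j : ℤ, s + j ≠ p m ∧ s + j ≠ p' m) →
      (((S.filter (fun m => ∃ j : ℤ, p m < s + j ∧ s + j < p' m)).card : ℕ) : ZMod 2) = d)
    (x : ℝ → ZMod 2) (hx : ∀ s, x (s + 1) = x s + 1) :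
    ∑ m ∈ S, (x (p' m) - x (p m)) = d := by
  have gen : ∀ s : ℝ, (∀ m ∈ S, ∀ j : ℤ, s + j ≠ p m ∧ s + j ≠ p' m) →
      ∑ m ∈ S, (((⌊p' m - s⌋ : ℤ) : ZMod 2) - ((⌊p m - s⌋ : ℤ) : ZMod 2)) = d := by
    intro s hs
    rw [← hcov s hs, Finset.card_filter]
    push_cast
    refine Finset.sum_congr rfl fun m hm => ?_
    obtain ⟨h1, h2⟩ := hp m hm
    have hf := floor_one h1 h2 (hs m hm)
    split_ifs with h
    · rw [hf.1 h]; push_cast; ring
    · rw [hf.2 h]; ring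
  have ev : ∀ e : ℝ, ∑ m ∈ S, ((if ∃ n : ℤ, p' m - e = n then (1 : ZMod 2) else 0) -
      (if ∃ n : ℤ, p m - e = n then (1 : ZMod 2) else 0)) = 0 := by
    intro e
    have hev : ∀ᶠ ε in 𝓝[>] (0 : ℝ), ∀ m ∈ S,
        (((∃ n : ℤ, p m - e = n) → ⌊p m - e - ε⌋ = ⌊p m - e⌋ - 1 ∧ ⌊p m - e + ε⌋ = ⌊p m - e⌋) ∧
        ((¬ ∃ n : ℤ, p m - e = n) → ⌊p m - e - ε⌋ = ⌊p m - e⌋ ∧ ⌊p m - e + ε⌋ = ⌊p m - e⌋) ∧
        ∀ j : ℤ, p m - e - ε ≠ j ∧ p m - e + ε ≠ j) ∧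
        (((∃ n : ℤ, p' m - e = n) →
          ⌊p' m - e - ε⌋ = ⌊p' m - e⌋ - 1 ∧ ⌊p' m - e + ε⌋ = ⌊p' m - e⌋) ∧
        ((¬ ∃ n : ℤ, p' m - e = n) →
          ⌊p' m - e - ε⌋ = ⌊p' m - e⌋ ∧ ⌊p' m - e + ε⌋ = ⌊p' m - e⌋) ∧
        ∀ j : ℤ, p' m - e - ε ≠ j ∧ p' m - e + ε ≠ j) := by
      rw [Filter.eventually_all_finset]
      intro m _
      exact (floor_near (p m - e)).and (floor_near (p' m - e))
    obtain ⟨ε, hε⟩ := hev.exists
    have g1 := gen (e + ε) fun m hm j => by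
      obtain ⟨⟨-, -, h1⟩, -, -, h2⟩ := hε m hm
      refine ⟨fun h => (h1 j).1 (by linarith), fun h => (h2 j).1 (by linarith)⟩
    have g2 := gen (e - ε) fun m hm j => by
      obtain ⟨⟨-, -, h1⟩, -, -, h2⟩ := hε m hm
      refine ⟨fun h => (h1 j).2 (by linarith), fun h => (h2 j).2 (by linarith)⟩
    have key : ∑ m ∈ S, ((if ∃ n : ℤ, p' m - e = n then (1 : ZMod 2) else 0) -
      (if ∃ n : ℤ, p m - e = n then (1 : ZMod 2) else 0)) =
      ∑ m ∈ S, (((⌊p' m - (e - ε)⌋ : ℤ) : ZMod 2) - ((⌊p m - (e - ε)⌋ : ℤ) : ZMod 2)) -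
      ∑ m ∈ S, (((⌊p' m - (e + ε)⌋ : ℤ) : ZMod 2) - ((⌊p m - (e + ε)⌋ : ℤ) : ZMod 2)) := by
      rw [← Finset.sum_sub_distrib]
      refine Finset.sum_congr rfl fun m hm => ?_
      obtain ⟨⟨h1, h2, -⟩, h3, h4, -⟩ := hε m hm
      have r1 : p' m - (e - ε) = p' m - e + ε := by ring
      have r2 : p m - (e - ε) = p m - e + ε := by ring
      have r3 : p' m - (e + ε) = p' m - e - ε := by ring
      have r4 : p m - (e + ε) = p m - e - ε := by ring
      rw [r1, r2, r3, r4]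
      by_cases c1 : ∃ n : ℤ, p' m - e = n <;> by_cases c2 : ∃ n : ℤ, p m - e = n
      · rw [if_pos c1, if_pos c2, (h1 c2).1, (h1 c2).2, (h3 c1).1, (h3 c1).2]
        push_cast; ring
      · rw [if_pos c1, if_neg c2, (h2 c2).1, (h2 c2).2, (h3 c1).1, (h3 c1).2]
        push_cast; ring
      · rw [if_neg c1, if_pos c2, (h1 c2).1, (h1 c2).2, (h4 c1).1, (h4 c1).2]
        push_cast; ring
      · rw [if_neg c1, if_neg c2, (h2 c2).1, (h2 c2).2, (h4 c1).1, (h4 c1).2]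
        ring
    rw [key, g1, g2, sub_self]
  obtain ⟨s0, hs0⟩ : ∃ s0 : ℝ, ∀ m ∈ S, ∀ j : ℤ, s0 + j ≠ p m ∧ s0 + j ≠ p' m := by
    have hev : ∀ᶠ ε in 𝓝[>] (0 : ℝ), ∀ m ∈ S,
        (∀ j : ℤ, p m - ε ≠ j ∧ p m + ε ≠ j) ∧ ∀ j : ℤ, p' m - ε ≠ j ∧ p' m + ε ≠ j := by
      rw [Filter.eventually_all_finset]
      intro m _
      filter_upwards [floor_near (p m), floor_near (p' m)] with ε h1 h2
      exact ⟨h1.2.2, h2.2.2⟩
    obtain ⟨ε, hε⟩ := hev.exists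
    refine ⟨ε, fun m hm j => ⟨fun h => ((hε m hm).1 j).1 (by linarith),
      fun h => ((hε m hm).2 j).1 (by linarith)⟩⟩
  have g0 := gen s0 hs0
  obtain ⟨h, hh⟩ : ∃ h : ℝ → ZMod 2, ∀ u, h u = x u - ((⌊u - s0⌋ : ℤ) : ZMod 2) :=
    ⟨_, fun _ => rfl⟩
  have hper : ∀ u : ℝ, ∀ n : ℤ, h (u + n) = h u := by
    intro u n
    rw [hh, hh, per_int hx, show u + n - s0 = u - s0 + n by ring, Int.floor_add_intCast]
    push_cast; ring
  have hsum : ∑ m ∈ S, (h (p' m) - h (p m)) = 0 := by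
    obtain ⟨E, hE⟩ : ∃ E : Finset ℝ, E = S.image (fun m => Int.fract (p m)) ∪
      S.image (fun m => Int.fract (p' m)) := ⟨_, rfl⟩
    have rep : ∀ u : ℝ, Int.fract u ∈ E → (∀ e ∈ E, 0 ≤ e ∧ e < 1) →
        h u = ∑ e ∈ E, h e * (if ∃ n : ℤ, u - e = n then (1 : ZMod 2) else 0) := by
      intro u hu hb
      rw [Finset.sum_eq_single (Int.fract u)]
      · rw [if_pos ⟨⌊u⌋, by rw [Int.fract]; ring⟩, mul_one]
        conv_lhs => rw [← Int.fract_add_floor u]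
        exact hper _ _
      · intro e he hne
        rw [if_neg, mul_zero]
        rintro ⟨n, hn⟩
        apply hne
        have h1 : u = e + n := by linarith
        rw [h1, Int.fract_add_intCast, Int.fract_eq_self.2 (hb e he)]
      · intro h1
        exact absurd hu h1
    have hb : ∀ e ∈ E, 0 ≤ e ∧ e < 1 := by
      intro e he
      rw [hE, Finset.mem_union, Finset.mem_image, Finset.mem_image] at he
      rcases he with ⟨m, -, rfl⟩ | ⟨m, -, rfl⟩ <;>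
        exact ⟨Int.fract_nonneg _, Int.fract_lt_one _⟩
    have e1 : ∀ m ∈ S, h (p' m) - h (p m) = ∑ e ∈ E, h e *
        ((if ∃ n : ℤ, p' m - e = n then (1 : ZMod 2) else 0) -
          (if ∃ n : ℤ, p m - e = n then (1 : ZMod 2) else 0)) := by
      intro m hm
      rw [rep (p' m) (by rw [hE]; exact Finset.mem_union_right _ (Finset.mem_image_of_mem _ hm)) hb,
        rep (p m) (by rw [hE]; exact Finset.mem_union_left _ (Finset.mem_image_of_mem _ hm)) hb,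
        ← Finset.sum_sub_distrib]
      exact Finset.sum_congr rfl fun e _ => by rw [mul_sub]
    rw [Finset.sum_congr rfl e1, Finset.sum_comm]
    refine Finset.sum_eq_zero fun e _ => ?_
    rw [← Finset.mul_sum, ev e, mul_zero]
  have e2 : ∀ m ∈ S, x (p' m) - x (p m) = (h (p' m) - h (p m)) +
      (((⌊p' m - s0⌋ : ℤ) : ZMod 2) - ((⌊p m - s0⌋ : ℤ) : ZMod 2)) := by
    intro m _
    rw [hh, hh]; ring
  rw [Finset.sum_congr rfl e2, Finset.sum_add_distrib, hsum, g0, zero_add]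

end Pool.Agent.H35.OddCov
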