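import Pool.Agent.H35.PegUni

/-! Arcs all of whose points are locally monotone, centres of local symmetry or bridged. -/

set_option autoImplicit false
open Complex Set Topology Metric

namespace Pool.Agent.H35.PegCol

open Pool.Agent.Y535.PEG
open Pool.Agent.H763R2 Pool.Agent.H763R2.An Pool.Agent.W675.Peg Pool.Agent.TH569.Peg
open Pool.Agent.H763R2.Dm (NoSq floor_const)

variable {c : ℝ → ℂ}

/-- the points after `c s` are locally monotone for a while, and there are arbitrarily short arcs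
around `c s` with tame ends that satisfy the staircase condition -/
def Bridged (c : ℝ → ℂ) (s : ℝ) : Prop := (∃ δ > 0, ∀ r ∈ Ioo s (s + δ), Mon c r) ∧
  ∀ ε > 0, ∃ x ∈ Ioo (s - ε) s, ∃ y ∈ Ioo s (s + ε), Cone c x ∧ Cone c y ∧ StairLR c x y

theorem arc_null2 (L : Loop c) (J : Inj c) {X : ℝ → ZMod 2}
    (x5 : ∀ s t, AR c s t → (∀ r ∈ Icc s t, Mon c r) → X t = X s)
    (x7 : ∀ s t, AR c s t →
      (∃ f, Smx f ∧ f '' (c '' Icc s t) = c '' Icc s t ∧ f (c s) = c t) → X t = X s)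
    (x8 : ∀ s t, AR c s t → StairLR c s t → X t = X s)
    {p p' : ℝ} (hp : p < p') (hp1 : p' < p + 1) (Cp : Cone c p) (Cp' : Cone c p')
    (hd : ∀ u v, p ≤ u → u < v → v ≤ p' → ∃ q ∈ Ioo u v, Cone c q)
    (H : ∀ s ∈ Icc p p', Mon c s ∨ LocSym c s ∨ Bridged c s) : X p' = X p := by
  obtain ⟨S, hS⟩ : ∃ S : Set ℝ, ∀ τ, τ ∈ S ↔ τ ∈ Icc p p' ∧
      ∀ q ∈ Icc p τ, Cone c q → X q = X p := ⟨{τ | _}, fun _ => Iff.rfl⟩
  have hpS : p ∈ S := (hS p).2 ⟨⟨le_rfl, hp.le⟩, fun q hq _ => by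
    rw [le_antisymm hq.2 hq.1]⟩
  have hbd : BddAbove S := ⟨p', fun τ hτ => ((hS τ).1 hτ).1.2⟩
  obtain ⟨e, he⟩ : ∃ e, e = sSup S := ⟨_, rfl⟩
  have pe : p ≤ e := by rw [he]; exact le_csSup hbd hpS
  have ep' : e ≤ p' := by rw [he]; exact csSup_le ⟨p, hpS⟩ fun τ hτ => ((hS τ).1 hτ).1.2
  have left : ∀ q, p ≤ q → q < e → Cone c q → X q = X p := by
    intro q h1 h2 C
    rw [he] at h2
    obtain ⟨τ, hτ, h3⟩ := exists_lt_of_lt_csSup ⟨p, hpS⟩ h2
    exact ((hS τ).1 hτ).2 q ⟨h1, h3.le⟩ C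
  -- it suffices to have the value on the right of `e` for a while
  have main : ∃ δ > 0, ∀ q ∈ Icc p p', e ≤ q → q < e + δ → Cone c q → X q = X p := by
    by_cases hM : Mon c e
    · obtain ⟨ρ, hρ, hm⟩ := Mon_near hM
      obtain ⟨q0, h1, h2, h3, h4⟩ : ∃ q0, p ≤ q0 ∧ (q0 ≤ e) ∧ |q0 - e| < ρ ∧
          (Cone c q0 ∧ X q0 = X p) := by
        rcases eq_or_lt_of_le pe with h | h
        · exact ⟨p, le_rfl, pe, by rw [h]; simpa using hρ, Cp, rfl⟩
        · obtain ⟨q0, hq0, C0⟩ := hd (max p (e - ρ)) e (le_max_left _ _)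
            (max_lt h (by linarith)) ep'
          have h5 := lt_of_le_of_lt (le_max_left _ _) hq0.1
          have h6 := lt_of_le_of_lt (le_max_right _ _) hq0.1
          exact ⟨q0, h5.le, hq0.2.le, by rw [abs_lt]; constructor <;> linarith [hq0.2], C0,
            left q0 h5.le hq0.2 C0⟩
      refine ⟨ρ, hρ, fun q hq hqe hq1 C => ?_⟩
      rcases eq_or_lt_of_le (h2.trans hqe) with h | h
      · rw [← h]; exact h4.2
      · rw [← h4.2]
        refine x5 q0 q ⟨h, by linarith [hq.2], h4.1, C⟩ fun r hr => hm r ?_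
        rw [abs_lt] at h3 ⊢
        constructor <;> linarith [hr.1, hr.2]
    · have e1 : p < e := lt_of_le_of_ne pe (fun h => hM (by rw [← h]; exact Mon_of_Cone Cp))
      have e2 : e < p' := lt_of_le_of_ne ep' (fun h => hM (by rw [h]; exact Mon_of_Cone Cp'))
      rcases (H e ⟨pe, ep'⟩).resolve_left hM with hs | ⟨⟨δ, hδ, hδ1⟩, hb⟩
      · obtain ⟨r, r', φ, h1, h2, h3, hc, fe, hφ⟩ := sym_arc L J hs
        have h4 : ContinuousAt φ e := hc.continuousAt (Icc_mem_nhds h1 h2)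
        obtain ⟨η, hη, h5⟩ := Metric.continuousAt_iff.1 h4 (e - p) (by linarith)
        refine ⟨min η (r' - e), lt_min hη (by linarith), fun q hq hqe hq1 C => ?_⟩
        have hne : e ≠ q := fun h => hM (by rw [h]; exact Mon_of_Cone C)
        have hlt : e < q := lt_of_le_of_ne hqe hne
        have hq2 : q - e < min η (r' - e) := by linarith
        rw [lt_min_iff] at hq2
        obtain ⟨⟨b1, b2⟩, C1, hf⟩ := hφ q ⟨hlt, by linarith [hq2.2]⟩
        have h6 := h5 (x := q) (by rw [Real.dist_eq, abs_of_pos (by linarith)]; exact hq2.1)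
        rw [fe, Real.dist_eq, abs_lt] at h6
        have h7 : p ≤ φ q := by linarith [h6.1]
        rw [x7 (φ q) q ⟨by linarith, by linarith [hq2.2], C1 C, C⟩ hf]
        exact left (φ q) h7 b2 (C1 C)
      · refine ⟨δ, hδ, fun q hq hqe hq1 C => ?_⟩
        have hne : e ≠ q := fun h => hM (by rw [h]; exact Mon_of_Cone C)
        have hlt : e < q := lt_of_le_of_ne hqe hne
        obtain ⟨x, hx, y, hy, Cx, Cy, hst⟩ := hb (min (q - e) (e - p))
          (lt_min (by linarith) (by linarith))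
        have m1 := min_le_left (q - e) (e - p)
        have m2 := min_le_right (q - e) (e - p)
        have k1 := x8 x y ⟨by linarith [hx.2, hy.1], by linarith [hx.1, hy.2, hq.2], Cx, Cy⟩ hst
        have k2 := x5 y q ⟨by linarith [hy.2], by linarith [hq.2, hy.1], Cy, C⟩ fun r hr =>
          hδ1 r ⟨by linarith [hr.1, hy.1], by linarith [hr.2]⟩
        rw [k2, k1]
        exact left x (by linarith [hx.1]) hx.2 Cx
  obtain ⟨δ, hδ, hm⟩ := main
  have all : ∀ q ∈ Icc p p', q < e + δ → Cone c q → X q = X p := by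
    intro q hq h1 C
    rcases lt_or_ge q e with h | h
    · exact left q hq.1 h C
    · exact hm q hq h h1 C
  by_contra hne
  have h1 : e + δ ≤ p' := by
    by_contra h
    push Not at h
    exact hne (all p' ⟨hp.le, le_rfl⟩ h Cp')
  have h2 : e + δ / 2 ∈ S := (hS _).2 ⟨⟨by linarith, by linarith⟩, fun q hq C =>
    all q ⟨hq.1, by linarith [hq.2]⟩ (by linarith [hq.2]) C⟩
  have h3 : e + δ / 2 ≤ e := by
    conv_rhs => rw [he]
    exact le_csSup hbd h2
  linarith

end Pool.Agent.H35.PegCol
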