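import Pool.Agent.Y535.PEG.Tg5

/-! The universal two-colouring of the curves without inscribed squares. -/

set_option autoImplicit false
open Complex Set Topology Metric

namespace Pool.Agent.H35.PegCol

open Pool.Agent.Y535.PEG
open Pool.Agent.H763R2 Pool.Agent.H763R2.An Pool.Agent.W675.Peg Pool.Agent.TH569.Peg
open Pool.Agent.H763R2.Dm (NoSq floor_const)

/-- A family of Jordan curves without inscribed squares has a common parity which changes after
one turn and whose changes along arcs respect congruences, similarities and local monotonicity. -/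
theorem colouring {ι : Type*} {c : ι → ℝ → ℂ} (L : ∀ k, Loop (c k))
    (J : ∀ k, Inj (c k)) (nosq : ∀ k, NoSq (range (c k))) : ∃ X : ι × ℝ → ZMod 2,
    (∀ k s, X (k, s + 1) = X (k, s) + 1) ∧
    (∀ i j p p' q q', p < p' → q < q' → Dirc2 (c i) (c j) p p' q q' →
      X (j, q') - X (j, q) = X (i, p') - X (i, p)) ∧
    (∀ i j p p' q q', p < p' → q < q' → Mirc2 (c i) (c j) p p' q q' →
      X (j, q') - X (j, q) = X (i, p') - X (i, p)) ∧
    (∀ i p p', p < p' → Mirc2 (c i) (c i) p p' p p' → X (i, p') = X (i, p)) ∧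
    (∀ k s t, AR (c k) s t → (∀ r ∈ Icc s t, Mon (c k) r) → X (k, t) = X (k, s)) ∧
    (∀ i j s t s' t', AR (c i) s t → AR (c j) s' t' →
      (∃ f, Smx f ∧ f '' (c i '' Icc s t) = c j '' Icc s' t') →
      X (j, t') - X (j, s') = X (i, t) - X (i, s)) ∧
    (∀ k s t, AR (c k) s t →
      (∃ f, Smx f ∧ f '' (c k '' Icc s t) = c k '' Icc s t ∧ f (c k s) = c k t) →
      X (k, t) = X (k, s)) := by
  classical
  have ex := fun k => exDtx (L k) (J k) (nosq k)
  choose Th G N0 Z Y D using ex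
  obtain ⟨x0, hx0⟩ := exXg (Gf c (fun k => Nrm (Th k) (N0 k))) Gf.refl
    (fun s t r k k' h h' => h.comp h') (fun s k h => Gf.loop D h)
  obtain ⟨X, hXc, hXn⟩ : ∃ X : ι × ℝ → ZMod 2, (∀ p, Cone (c p.1) p.2 →
      X p = (Y p.1 p.2 : ZMod 2)) ∧ ∀ p, ¬ Cone (c p.1) p.2 → X p = x0 p :=
    ⟨fun p => if Cone (c p.1) p.2 then (Y p.1 p.2 : ZMod 2) else x0 p, fun p hp => if_pos hp,
      fun p hp => if_neg hp⟩
  have hX : ∀ p q k k', Gf c (fun k => Nrm (Th k) (N0 k)) p q k →
      Gf c (fun k => Nrm (Th k) (N0 k)) q p k' → X q = X p + k := by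
    intro p q k k' h h'
    by_cases hs : Cone (c p.1) p.2
    · obtain ⟨hc, hl⟩ := h.tame D hs
      rw [hXc p hs, hXc q hc]
      exact hl
    · have hc : ¬ Cone (c q.1) q.2 := fun hc => hs (h'.tame D hc).1
      rw [hXn p hs, hXn q hc]
      exact hx0 _ _ _ _ h h'
  have hXd : ∀ k s, Cone (c k) s → X (k, s) = (Y k s : ZMod 2) := fun k s h => hXc (k, s) h
  refine ⟨X, fun k s => ?_, fun i j p p' q q' hp hq h => dirc2_x D hX hp hq h,
    fun i j p p' q q' hp hq h => (mirc2_x D hX hp hq h).1,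
    fun i p p' hp h => sub_eq_zero.1 ((mirc2_x D hX hp hp h).2 rfl rfl rfl), fun k s t h hm => ?_,
    fun i j s t s' t' h h' hf => ?_, fun k s t h hf => ?_⟩
  · rw [hX _ _ _ _ (Gf.shift D k s) (Gf.unshift D k s), z2_of_odd (D k).odd]
  · rw [hXd _ _ h.ha, hXd _ _ h.hb, (D k).mon _ _ h hm]
  · obtain ⟨f, ⟨u, v, hu, hTT⟩, k2⟩ := hf
    have hp := pair2 (L i) (J i) (D i).pos (D i).A (L _) (J _) (nosq _) (D _).pos (D _).A h h'
      ((D i).lev _ h.ha) ((D i).lev _ h.hb) ((D _).lev _ h'.ha) ((D _).lev _ h'.hb) hu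
      (v := v) (by
        rcases hTT with h | h
        · left; rw [← h]; exact k2
        · right; rw [← h]; exact k2)
    rw [hXd _ _ h.ha, hXd _ _ h.hb, hXd _ _ h'.ha, hXd _ _ h'.hb]
    have := z2_pm (m := Y i t - Y i s) (m' := Y j t' - Y j s') (by
      rcases hp with hp | hp
      · left; linarith
      · right; linarith)
    push_cast at this
    exact this
  · have := z2_of_even ((D k).slf _ _ h hf)
    push_cast at this
    rw [hXd _ _ h.ha, hXd _ _ h.hb]
    exact sub_eq_zero.1 this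

end Pool.Agent.H35.PegCol
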