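import Pool.Agent.H35.PegSym

/-! The staircase criterion: an arc is neutral if the squares erected on the chords from its two ends
have a suitable position. -/

set_option autoImplicit false
open Complex Set Topology Metric

namespace Pool.Agent.H35.PegCol

open Pool.Agent.Y535.PEG
open Pool.Agent.H763R2 Pool.Agent.H763R2.An Pool.Agent.W675.Peg Pool.Agent.TH569.Peg
open Pool.Agent.H763R2.Dm (NoSq floor_const)

variable {c : ℝ → ℂ}

theorem stay {f : ℝ → ℝ} {I : Set ℝ} (hI : IsPreconnected I) (hf : ContinuousOn f I) {a b : ℝ}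
    (ha : ∀ t ∈ I, f t ≠ a) (hb : ∀ t ∈ I, f t ≠ b) {t0 : ℝ} (ht0 : t0 ∈ I)
    (h : f t0 ∈ Ioo a b) : ∀ t ∈ I, f t ∈ Ioo a b := by
  intro t ht
  refine ⟨?_, ?_⟩
  · by_contra hcon
    push Not at hcon
    obtain ⟨s, hs, e⟩ := hI.intermediate_value ht ht0 hf ⟨hcon, h.1.le⟩
    exact ha s hs e
  · by_contra hcon
    push Not at hcon
    obtain ⟨s, hs, e⟩ := hI.intermediate_value ht0 ht hf ⟨h.2.le, hcon⟩
    exact hb s hs e

theorem stair {θ : ℝ → ℝ → ℝ} {g : ℤ} (L : Loop c) (J : Inj c) {z0 : ℂ} (hz : 0 < mgc c z0)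
    (A : Ang c (mgc c) θ g)
    {p p' : ℝ} (h : AR c p p') {l l' : ℤ} (hl : KL θ p l) (hl' : KL θ p' l') {σ : ℝ}
    (hσ : σ = 1 ∨ σ = -1) (h0 : ∃ δ > 0, ∀ y ∈ Ioo p (p + δ), 0 < σ * mgc c (DD c p y))
    (h1 : ∀ y ∈ Ioc p p', 0 < σ * mgc c (DD c p y) ∨ σ * mgc c (CC c p y) < 0)
    (h2 : ∀ x ∈ Ico p p', 0 < σ * mgc c (CC c x p') ∨ σ * mgc c (DD c x p') < 0)
    (h3 : 0 < σ * mgc c (DD c p p')) (h4 : 0 < σ * mgc c (CC c p p')) : l' = l := by
  have hπ := Real.pi_pos
  have hpp := h.ab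
  have hp1 := h.ba
  -- a short chord at `p`
  obtain ⟨y0, hy0, hfl, hD0, hC0⟩ : ∃ y0 ∈ Ioc p p', ⌊θ p y0 / Real.pi⌋ = l ∧
      0 < σ * mgc c (DD c p y0) ∧ 0 < σ * mgc c (CC c p y0) := by
    obtain ⟨δ, hδ, hδ1⟩ := h0
    obtain ⟨ρ, hρ, hρ1⟩ := hl
    obtain ⟨P, Q, -, hP, -, ρ', hρ', hρ2⟩ := cone_test L J h.ha
    obtain ⟨r, hr, r1, r2, r3, r4⟩ : ∃ r > 0, r < δ ∧ r < ρ ∧ r < ρ' ∧ r ≤ p' - p := by
      refine ⟨min (min (δ / 2) (ρ / 2)) (min (ρ' / 2) (p' - p)), ?_, ?_, ?_, ?_, ?_⟩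
      · have : 0 < p' - p := by linarith
        positivity
      · exact lt_of_le_of_lt ((min_le_left _ _).trans (min_le_left _ _)) (by linarith)
      · exact lt_of_le_of_lt ((min_le_left _ _).trans (min_le_right _ _)) (by linarith)
      · exact lt_of_le_of_lt ((min_le_right _ _).trans (min_le_left _ _)) (by linarith)
      · exact (min_le_right _ _).trans (min_le_right _ _)
    have hD := hδ1 (p + r) ⟨by linarith, by linarith⟩
    have e1 : |p - p| < ρ := by simpa using hρ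
    have e2 : |p + r - p| < ρ := by rw [add_sub_cancel_left, abs_of_pos hr]; exact r2
    have e3 : |p - p| < ρ' := by simpa using hρ'
    have e4 : |p + r - p| < ρ' := by rw [add_sub_cancel_left, abs_of_pos hr]; exact r3
    obtain ⟨k1, k2, -, -⟩ := hρ2 p (p + r) e3 e4 (by linarith)
    refine ⟨p + r, ⟨by linarith, by linarith⟩, hρ1 p (p + r) e1 e2 (by linarith), hD, ?_⟩
    rcases lt_or_gt_of_ne hP with hP' | hP'
    · have k3 : mgc c (DD c p (p + r)) < 0 := pos_iff_neg_of_mul_neg_helper hP' k1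
      have k4 : mgc c (CC c p (p + r)) < 0 := pos_iff_neg_of_mul_neg_helper hP' k2
      rcases hσ with rfl | rfl
      · linarith
      · linarith
    · have k3 : 0 < mgc c (DD c p (p + r)) := (mul_pos_iff_of_pos_left hP').1 k1
      have k4 : 0 < mgc c (CC c p (p + r)) := (mul_pos_iff_of_pos_left hP').1 k2
      rcases hσ with rfl | rfl
      · linarith
      · linarith
  -- the sign is the parity of the level
  have trig : ∀ x y, x < y → y < x + 1 → ∃ ρ > 0,
      mgc c (DD c x y) = ρ * ((-1 : ℝ) ^ l * Real.cos (θ x y - l * Real.pi)) ∧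
      mgc c (CC c x y) = ρ * ((-1 : ℝ) ^ l * Real.sin (θ x y - l * Real.pi)) := by
    intro x y hxy hyx
    obtain ⟨ρ, hρ, e1, e2⟩ := A.ex x y hxy hyx
    refine ⟨ρ, hρ, ?_, ?_⟩
    · rw [e1, ← Real.cos_add_int_mul_pi, sub_add_cancel]
    · rw [e2, ← Real.sin_add_int_mul_pi, sub_add_cancel]
  have flb : (l : ℝ) * Real.pi ≤ θ p y0 ∧ θ p y0 < (l + 1) * Real.pi := by
    rw [Int.floor_eq_iff, le_div_iff₀ hπ, div_lt_iff₀ hπ] at hfl
    exact hfl
  have hsg : σ * (-1 : ℝ) ^ l = 1 := by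
    obtain ⟨ρ, hρ, e1, e2⟩ := trig p y0 hy0.1 (by linarith [hy0.2])
    have s1 : 0 ≤ Real.sin (θ p y0 - l * Real.pi) :=
      Real.sin_nonneg_of_nonneg_of_le_pi (by linarith [flb.1]) (by linarith [flb.2])
    rw [e2] at hC0
    have h5 : (-1 : ℝ) ^ l = 1 ∨ (-1 : ℝ) ^ l = -1 := by
      rcases Int.even_or_odd l with hl | hl
      · left; exact hl.neg_one_zpow
      · right; exact hl.neg_one_zpow
    rcases hσ with rfl | rfl <;> rcases h5 with h5 | h5 <;> rw [h5] at hC0 ⊢
    · norm_num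
    · have := mul_nonneg hρ.le s1
      nlinarith
    · have := mul_nonneg hρ.le s1
      nlinarith
    · norm_num
  have val : ∀ x y, x < y → y < x + 1 → ∃ ρ > 0,
      σ * mgc c (DD c x y) = ρ * Real.cos (θ x y - l * Real.pi) ∧
      σ * mgc c (CC c x y) = ρ * Real.sin (θ x y - l * Real.pi) := by
    intro x y hxy hyx
    obtain ⟨ρ, hρ, e1, e2⟩ := trig x y hxy hyx
    refine ⟨ρ, hρ, ?_, ?_⟩
    · rw [e1]; linear_combination (ρ * Real.cos (θ x y - l * Real.pi)) * hsg
    · rw [e2]; linear_combination (ρ * Real.sin (θ x y - l * Real.pi)) * hsg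
  -- the first path
  have c1 : ContinuousOn (fun y => θ p y - l * Real.pi) (Ioc p p') := by
    refine ContinuousOn.sub ?_ continuousOn_const
    exact A.cont.comp (f := fun y : ℝ => (p, y)) (by fun_prop)
      (fun y hy => ⟨hy.1, by linarith [hy.2]⟩)
  have st1 := stay (a := -Real.pi) (b := Real.pi / 2) isPreconnected_Ioc c1 (fun y hy he => by
      obtain ⟨ρ, hρ, e1, e2⟩ := val p y hy.1 (by linarith [hy.2])
      rw [he, Real.cos_neg, Real.cos_pi] at e1
      rw [he, Real.sin_neg, Real.sin_pi] at e2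
      rcases h1 y hy with h | h
      · linarith
      · linarith) (fun y hy he => by
      obtain ⟨ρ, hρ, e1, e2⟩ := val p y hy.1 (by linarith [hy.2])
      rw [he, Real.cos_pi_div_two] at e1
      rw [he, Real.sin_pi_div_two] at e2
      rcases h1 y hy with h | h
      · linarith
      · linarith) hy0 (by
      obtain ⟨ρ, hρ, e1, e2⟩ := val p y0 hy0.1 (by linarith [hy0.2])
      refine ⟨by linarith [flb.1], ?_⟩
      by_contra hcon
      push Not at hcon
      have : Real.cos (θ p y0 - l * Real.pi) ≤ 0 :=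
        Real.cos_nonpos_of_pi_div_two_le_of_le hcon (by linarith [flb.2])
      rw [e1] at hD0
      have := mul_nonpos_of_nonneg_of_nonpos hρ.le this
      linarith)
  have end1 := st1 p' ⟨hpp, le_rfl⟩
  obtain ⟨ρ1, hρ1, e1, e2⟩ := val p p' hpp hp1
  have sp : 0 < Real.sin (θ p p' - l * Real.pi) := by
    rw [e2] at h4
    exact (mul_pos_iff_of_pos_left hρ1).1 h4
  have end2 : 0 < θ p p' - l * Real.pi := by
    by_contra hcon
    push Not at hcon
    have := Real.sin_nonpos_of_nonpos_of_neg_pi_le hcon (by linarith [end1.1])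
    linarith
  -- the second path
  have c2 : ContinuousOn (fun x => θ x p' - l * Real.pi) (Ico p p') := by
    refine ContinuousOn.sub ?_ continuousOn_const
    exact A.cont.comp (f := fun x : ℝ => (x, p')) (by fun_prop)
      (fun x hx => ⟨hx.2, by simp only; linarith [hx.1]⟩)
  have st2 := stay (a := 0) (b := 3 * Real.pi / 2) isPreconnected_Ico c2 (fun x hx he => by
      obtain ⟨ρ, hρ, e1, e2⟩ := val x p' hx.2 (by linarith [hx.1])
      rw [he, Real.cos_zero] at e1
      rw [he, Real.sin_zero] at e2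
      rcases h2 x hx with h | h
      · linarith
      · linarith) (fun x hx he => by
      obtain ⟨ρ, hρ, e1, e2⟩ := val x p' hx.2 (by linarith [hx.1])
      have r1 : (3 * Real.pi / 2 : ℝ) = Real.pi / 2 + Real.pi := by ring
      rw [he, r1, Real.cos_add_pi, Real.cos_pi_div_two] at e1
      rw [he, r1, Real.sin_add_pi, Real.sin_pi_div_two] at e2
      rcases h2 x hx with h | h
      · linarith
      · linarith) (t0 := p) ⟨le_rfl, hpp⟩ ⟨end2, by linarith [end1.2]⟩
  obtain ⟨m, hm⟩ := KL.parity L J hz A h.ha h.hb hl hl'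
  -- a short chord at `p'`
  obtain ⟨x0, hx0, hfl'⟩ : ∃ x0 ∈ Ico p p', ⌊θ x0 p' / Real.pi⌋ = l' := by
    obtain ⟨ρ, hρ, hρ1⟩ := hl'
    refine ⟨max p (p' - ρ / 2), ⟨le_max_left _ _, max_lt hpp (by linarith)⟩, ?_⟩
    have m1 : p' - ρ / 2 ≤ max p (p' - ρ / 2) := le_max_right _ _
    have m2 : max p (p' - ρ / 2) < p' := max_lt hpp (by linarith)
    refine hρ1 _ _ ?_ (by simpa using hρ) m2
    rw [abs_lt]; constructor <;> linarith
  have b := st2 x0 hx0
  rw [Int.floor_eq_iff, le_div_iff₀ hπ, div_lt_iff₀ hπ] at hfl'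
  have b1 : (l' : ℝ) < l + 2 := by
    by_contra hcon
    push Not at hcon
    have := mul_le_mul_of_nonneg_right hcon hπ.le
    linarith [hfl'.1, b.2]
  have b2 : (l : ℝ) < l' + 1 := by
    by_contra hcon
    push Not at hcon
    have := mul_le_mul_of_nonneg_right hcon hπ.le
    linarith [hfl'.2, b.1]
  have b3 : l' < l + 2 := by exact_mod_cast b1
  have b4 : l < l' + 1 := by exact_mod_cast b2
  omega

end Pool.Agent.H35.PegCol
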