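import Pool.Agent.H35.PegCol

/-! Arcs all of whose points are locally monotone or centres of local symmetry are neutral. -/

set_option autoImplicit false
open Complex Set Topology Metric

namespace Pool.Agent.H35.PegCol

open Pool.Agent.Y535.PEG
open Pool.Agent.H763R2 Pool.Agent.H763R2.An Pool.Agent.W675.Peg Pool.Agent.TH569.Peg
open Pool.Agent.H763R2.Dm (NoSq floor_const)

variable {c : ℝ → ℂ}

/-- Some arc around `c s` is mapped onto itself by a congruence (of either orientation) of the plane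
that exchanges its ends and fixes the point `c s`. -/
def LocSym (c : ℝ → ℂ) (s : ℝ) : Prop := ∃ p p' : ℝ, p < s ∧ s < p' ∧ p' < p + 1 ∧
  ∃ (u v : ℂ) (f : ℂ → ℂ), ‖u‖ = 1 ∧
    (f = (fun z => u * z + v) ∨ f = fun z => u * (starRingEnd ℂ) z + v) ∧
    f '' (c '' Icc p p') = c '' Icc p p' ∧ f (c p) = c p' ∧ f (c s) = c s

theorem cone_sym {f : ℂ → ℂ} {u v : ℂ}
    (hf : (u = -1 ∧ f = (fun z => u * z + v)) ∨ f = fun z => u * (starRingEnd ℂ) z + v)
    {φ : ℝ → ℝ} {p p' q : ℝ} (hφ : ContinuousOn φ (Icc p p')) (anti : StrictAntiOn φ (Icc p p'))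
    (heq : ∀ t ∈ Icc p p', c (φ t) = f (c t)) (hq : q ∈ Ioo p p') (C : Cone c (φ q)) :
    Cone c q := by
  obtain ⟨ρ, hρ, w, hw⟩ := C
  have h1 : ContinuousAt φ q := hφ.continuousAt (Icc_mem_nhds hq.1 hq.2)
  obtain ⟨η, hη, h2⟩ := Metric.continuousAt_iff.1 h1 ρ hρ
  obtain ⟨r, hr, r1, r2, r3⟩ : ∃ r > 0, r ≤ η ∧ r ≤ q - p ∧ r ≤ p' - q :=
    ⟨min η (min (q - p) (p' - q)), lt_min hη (lt_min (by linarith [hq.1]) (by linarith [hq.2])),
      min_le_left _ _, (min_le_right _ _).trans (min_le_left _ _),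
      (min_le_right _ _).trans (min_le_right _ _)⟩
  have near : ∀ x, |x - q| < r → x ∈ Icc p p' ∧ |φ x - φ q| < ρ := by
    intro x hx
    have := h2 (x := x) (by rw [Real.dist_eq]; linarith)
    rw [Real.dist_eq] at this
    rw [abs_lt] at hx
    exact ⟨⟨by linarith, by linarith⟩, this⟩
  rcases hf with ⟨hu1, hf⟩ | hf
  · refine ⟨r, hr, w, fun x y hx hy hxy => ?_⟩
    obtain ⟨mx, ex⟩ := near x hx
    obtain ⟨my, ey⟩ := near y hy
    have := hw (φ y) (φ x) ey ex (anti mx my hxy)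
    rw [heq x mx, heq y my, hf, hu1] at this
    have e : w * ((-1 : ℂ) * c x + v - ((-1 : ℂ) * c y + v)) = w * (c y - c x) := by ring
    simp only at this
    rwa [e] at this
  · refine ⟨r, hr, -(starRingEnd ℂ) (w * u), fun x y hx hy hxy => ?_⟩
    obtain ⟨mx, ex⟩ := near x hx
    obtain ⟨my, ey⟩ := near y hy
    have := hw (φ y) (φ x) ey ex (anti mx my hxy)
    rw [heq x mx, heq y my, hf] at this
    simp only at this
    have e : -(starRingEnd ℂ) (w * u) * (c y - c x) =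
        (starRingEnd ℂ) (w * (u * (starRingEnd ℂ) (c x) + v -
          (u * (starRingEnd ℂ) (c y) + v))) := by
      simp only [map_mul, map_sub, map_add, Complex.conj_conj]
      ring
    rw [e, Complex.conj_im, Complex.conj_re, abs_neg]
    exact this

/-- the reflected parameter at a centre of local symmetry -/
theorem sym_arc (L : Loop c) (J : Inj c) {s : ℝ} (h : LocSym c s) :
    ∃ (p p' : ℝ) (φ : ℝ → ℝ), p < s ∧ s < p' ∧ p' < p + 1 ∧ ContinuousOn φ (Icc p p') ∧ φ s = s ∧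
      ∀ q ∈ Ioo s p', φ q ∈ Ioo p s ∧ (Cone c q → Cone c (φ q)) ∧
        ∃ f, Smx f ∧ f '' (c '' Icc (φ q) q) = c '' Icc (φ q) q ∧ f (c (φ q)) = c q := by
  obtain ⟨p, p', h1, h2, h3, u, v, f, hu, hf, him, e1, e2⟩ := h
  have hu0 : u ≠ 0 := norm_ne_zero_iff.1 (by rw [hu]; exact one_ne_zero)
  have hT : ∃ e, Smy f u e := by
    rcases hf with hf | hf
    · exact ⟨1, hu0, Or.inl ⟨rfl, v, fun z => by rw [hf]⟩⟩
    · exact ⟨-1, hu0, Or.inr ⟨rfl, v, fun z => by rw [hf]⟩⟩
  obtain ⟨e, hT⟩ := hT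
  have hS : Smx f := ⟨u, v, hu0, hf⟩
  obtain ⟨φ, d, P, hφ⟩ := mk_mq L J L J hT (by linarith) h3 (by linarith) h3 him
  have mp : p ∈ Icc p p' := ⟨le_rfl, by linarith⟩
  have mp' : p' ∈ Icc p p' := ⟨by linarith, le_rfl⟩
  have ms : s ∈ Icc p p' := ⟨h1.le, h2.le⟩
  have hne : c p ≠ c p' := J _ _ (by linarith) h3
  obtain ⟨hd, f1, f2⟩ : d = -1 ∧ φ p = p' ∧ φ p' = p := by
    rcases hφ with ⟨hd, f1, f2⟩ | h
    · have := P.eq p mp
      rw [f1, e1] at this
      exact absurd this hne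
    · exact h
  have anti : StrictAntiOn φ (Icc p p') := by
    rcases P.mono with ⟨h, -⟩ | ⟨-, h, -⟩
    · rw [hd] at h; exact absurd h (by decide)
    · exact h
  have mem : ∀ t ∈ Icc p p', φ t ∈ Icc p p' := fun t ht => by
    have a1 := anti.antitoneOn ht mp' ht.2
    have a2 := anti.antitoneOn mp ht ht.1
    rw [f2] at a1
    rw [f1] at a2
    exact ⟨a1, a2⟩
  have fs : φ s = s := inj_Icc J h3 (mem s ms) ms (by rw [P.eq s ms]; exact e2)
  have e3 : f (c p') = c p := by rw [← P.eq p' mp', f2]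
  have inv : ∀ z, f (f z) = z := by
    rcases hf with hf | hf
    · rw [hf] at e1 e3 ⊢
      simp only at e1 e3 ⊢
      have h4 : (u + 1) * (c p - c p') = 0 := by linear_combination e1 - e3
      have h5 : u = -1 := by
        rcases mul_eq_zero.1 h4 with h | h
        · linear_combination h
        · exact absurd (sub_eq_zero.1 h) hne
      intro z
      rw [h5]; ring
    · rw [hf] at e1 e3 ⊢
      simp only at e1 e3 ⊢
      have hmod : u * (starRingEnd ℂ) u = 1 := by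
        rw [Complex.mul_conj, Complex.normSq_eq_norm_sq, hu]; norm_num
      have h4 : u * (starRingEnd ℂ) v + v = 0 := by
        have : u * (starRingEnd ℂ) (u * (starRingEnd ℂ) (c p) + v) + v = c p := by
          rw [e1]; exact e3
        simp only [map_add, map_mul, Complex.conj_conj] at this
        linear_combination this - c p * hmod
      intro z
      simp only [map_add, map_mul, Complex.conj_conj]
      linear_combination z * hmod + h4
  have hu1 : (u = -1 ∧ f = (fun z => u * z + v)) ∨ f = fun z => u * (starRingEnd ℂ) z + v := by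
    rcases hf with hf | hf
    · left
      refine ⟨?_, hf⟩
      rw [hf] at e1 e3
      simp only at e1 e3
      have h4 : (u + 1) * (c p - c p') = 0 := by linear_combination e1 - e3
      rcases mul_eq_zero.1 h4 with h | h
      · linear_combination h
      · exact absurd (sub_eq_zero.1 h) hne
    · exact Or.inr hf
  have inv2 : ∀ t ∈ Icc p p', φ (φ t) = t := fun t ht =>
    inj_Icc J h3 (mem _ (mem t ht)) ht (by rw [P.eq _ (mem t ht), P.eq t ht, inv])
  refine ⟨p, p', φ, h1, h2, h3, P.cont, fs, fun q hq => ?_⟩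
  have mq : q ∈ Icc p p' := ⟨by linarith [hq.1], hq.2.le⟩
  have b1 : φ q < s := by
    have := anti ms mq hq.1
    rwa [fs] at this
  have b2 : p < φ q := by
    have := anti mq mp' hq.2
    rwa [f2] at this
  have mq1 : φ q ∈ Icc p p' := ⟨b2.le, by linarith⟩
  have sub : Icc (φ q) q ⊆ Icc p p' := Icc_subset_Icc b2.le hq.2.le
  have memq : ∀ t ∈ Icc (φ q) q, φ t ∈ Icc (φ q) q := fun t ht => by
    have a1 := anti.antitoneOn (sub ht) mq ht.2
    have a2 := anti.antitoneOn mq1 (sub ht) ht.1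
    rw [inv2 q mq] at a2
    exact ⟨a1, a2⟩
  refine ⟨⟨b2, b1⟩, fun C => ?_, f, hS, ?_, ?_⟩
  · refine cone_sym hu1 P.cont anti P.eq ⟨b2, by linarith⟩ ?_
    rw [inv2 q mq]
    exact C
  · apply Subset.antisymm
    · rintro _ ⟨_, ⟨t, ht, rfl⟩, rfl⟩
      exact ⟨φ t, memq t ht, P.eq t (sub ht)⟩
    · rintro _ ⟨t, ht, rfl⟩
      refine ⟨c (φ t), ⟨φ t, memq t ht, rfl⟩, ?_⟩
      rw [P.eq t (sub ht), inv]
  · rw [← P.eq _ mq1, inv2 q mq]

theorem Mon_of_Cone {s : ℝ} (h : Cone c s) : Mon c s := by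
  obtain ⟨ρ, hρ, w, hw⟩ := h
  exact ⟨ρ, hρ, w, fun x y hx hy hxy => lt_of_le_of_lt (abs_nonneg _) (hw x y hx hy hxy)⟩

theorem Mon_near {s : ℝ} (h : Mon c s) : ∃ ρ > 0, ∀ r, |r - s| < ρ → Mon c r := by
  obtain ⟨ρ, hρ, w, hw⟩ := h
  refine ⟨ρ / 2, by linarith, fun r hr => ⟨ρ / 2, by linarith, w, fun x y hx hy hxy => ?_⟩⟩
  rw [abs_lt] at hr hx hy
  refine hw x y ?_ ?_ hxy <;> rw [abs_lt] <;> constructor <;> linarith

/-- an arc all of whose points are locally monotone or centres of local symmetry, with tame ends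
and dense tame points, is neutral -/
theorem arc_null (L : Loop c) (J : Inj c) {X : ℝ → ZMod 2}
    (x5 : ∀ s t, AR c s t → (∀ r ∈ Icc s t, Mon c r) → X t = X s)
    (x7 : ∀ s t, AR c s t →
      (∃ f, Smx f ∧ f '' (c '' Icc s t) = c '' Icc s t ∧ f (c s) = c t) → X t = X s)
    {p p' : ℝ} (hp : p < p') (hp1 : p' < p + 1) (Cp : Cone c p) (Cp' : Cone c p')
    (hd : ∀ u v, p ≤ u → u < v → v ≤ p' → ∃ q ∈ Ioo u v, Cone c q)
    (H : ∀ s ∈ Icc p p', Mon c s ∨ LocSym c s) : X p' = X p := by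
  obtain ⟨S, hS⟩ : ∃ S : Set ℝ, ∀ τ, τ ∈ S ↔ τ ∈ Icc p p' ∧
      ∀ q ∈ Icc p τ, Cone c q → X q = X p := ⟨{τ | _}, fun _ => Iff.rfl⟩
  have hpS : p ∈ S := (hS p).2 ⟨⟨le_rfl, hp.le⟩, fun q hq _ => by
    rw [le_antisymm hq.2 hq.1]⟩
  have hbd : BddAbove S := ⟨p', fun τ hτ => ((hS τ).1 hτ).1.2⟩
  obtain ⟨e, he⟩ : ∃ e, e = sSup S := ⟨_, rfl⟩
  have pe : p ≤ e := by rw [he]; exact le_csSup hbd hpS
  have ep' : e ≤ p' := by rw [he]; exact csSup_le ⟨p, hpS⟩ fun τ hτ => ((hS τ).1 hτ).1.2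
  have left : ∀ q, p ≤ q → q < e → Cone c q → X q = X p := by
    intro q h1 h2 C
    rw [he] at h2
    obtain ⟨τ, hτ, h3⟩ := exists_lt_of_lt_csSup ⟨p, hpS⟩ h2
    exact ((hS τ).1 hτ).2 q ⟨h1, h3.le⟩ C
  -- it suffices to have the value on the right of `e` for a while
  have main : ∃ δ > 0, ∀ q ∈ Icc p p', e ≤ q → q < e + δ → Cone c q → X q = X p := by
    by_cases hM : Mon c e
    · obtain ⟨ρ, hρ, hm⟩ := Mon_near hM
      obtain ⟨q0, h1, h2, h3, h4⟩ : ∃ q0, p ≤ q0 ∧ (q0 ≤ e) ∧ |q0 - e| < ρ ∧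
          (Cone c q0 ∧ X q0 = X p) := by
        rcases eq_or_lt_of_le pe with h | h
        · exact ⟨p, le_rfl, pe, by rw [h]; simpa using hρ, Cp, rfl⟩
        · obtain ⟨q0, hq0, C0⟩ := hd (max p (e - ρ)) e (le_max_left _ _)
            (max_lt h (by linarith)) ep'
          have h5 := lt_of_le_of_lt (le_max_left _ _) hq0.1
          have h6 := lt_of_le_of_lt (le_max_right _ _) hq0.1
          exact ⟨q0, h5.le, hq0.2.le, by rw [abs_lt]; constructor <;> linarith [hq0.2], C0,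
            left q0 h5.le hq0.2 C0⟩
      refine ⟨ρ, hρ, fun q hq hqe hq1 C => ?_⟩
      rcases eq_or_lt_of_le (h2.trans hqe) with h | h
      · rw [← h]; exact h4.2
      · rw [← h4.2]
        refine x5 q0 q ⟨h, by linarith [hq.2], h4.1, C⟩ fun r hr => hm r ?_
        rw [abs_lt] at h3 ⊢
        constructor <;> linarith [hr.1, hr.2]
    · have e1 : p < e := lt_of_le_of_ne pe (fun h => hM (by rw [← h]; exact Mon_of_Cone Cp))
      have e2 : e < p' := lt_of_le_of_ne ep' (fun h => hM (by rw [h]; exact Mon_of_Cone Cp'))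
      have hs : LocSym c e := (H e ⟨pe, ep'⟩).resolve_left hM
      obtain ⟨r, r', φ, h1, h2, h3, hc, fe, hφ⟩ := sym_arc L J hs
      have h4 : ContinuousAt φ e := hc.continuousAt (Icc_mem_nhds h1 h2)
      obtain ⟨η, hη, h5⟩ := Metric.continuousAt_iff.1 h4 (e - p) (by linarith)
      refine ⟨min η (r' - e), lt_min hη (by linarith), fun q hq hqe hq1 C => ?_⟩
      have hne : e ≠ q := fun h => hM (by rw [h]; exact Mon_of_Cone C)
      have hlt : e < q := lt_of_le_of_ne hqe hne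
      have hq2 : q - e < min η (r' - e) := by linarith
      rw [lt_min_iff] at hq2
      obtain ⟨⟨b1, b2⟩, C1, hf⟩ := hφ q ⟨hlt, by linarith [hq2.2]⟩
      have h6 := h5 (x := q) (by rw [Real.dist_eq, abs_of_pos (by linarith)]; exact hq2.1)
      rw [fe, Real.dist_eq, abs_lt] at h6
      have h7 : p ≤ φ q := by linarith [h6.1]
      rw [x7 (φ q) q ⟨by linarith, by linarith [hq2.2], C1 C, C⟩ hf]
      exact left (φ q) h7 b2 (C1 C)
  obtain ⟨δ, hδ, hm⟩ := main
  have all : ∀ q ∈ Icc p p', q < e + δ → Cone c q → X q = X p := by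
    intro q hq h1 C
    rcases lt_or_ge q e with h | h
    · exact left q hq.1 h C
    · exact hm q hq h h1 C
  by_contra hne
  have h1 : e + δ ≤ p' := by
    by_contra h
    push Not at h
    exact hne (all p' ⟨hp.le, le_rfl⟩ h Cp')
  have h2 : e + δ / 2 ∈ S := (hS _).2 ⟨⟨by linarith, by linarith⟩, fun q hq C =>
    all q ⟨hq.1, by linarith [hq.2]⟩ (by linarith [hq.2]) C⟩
  have h3 : e + δ / 2 ≤ e := by
    conv_rhs => rw [he]
    exact le_csSup hbd h2
  linarith

end Pool.Agent.H35.PegCol
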